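import Pool.Agent.Q149.CopC

/-!
# Cops and attacking robber on grids of every dimension

The attacking cop number of the grid `P_{m_1} □ ⋯ □ P_{m_n}` (`n ≥ 1`, all `m_i ≥ 2`) is
`⌈n/2⌉ + 1`, with exactly three exceptions: it is `1` for the paths `P_2`, `P_3` and `2` for the
cube `Q_3`.

The game (definitions in `Pool/Agent/Q149/CopDefs.lean`):
* `Step G u v` : a player stays put or moves to an adjacent vertex;
* `after S c r` : the cops left after the robber moved onto `r`: if exactly one of the cops of `S`
  stands on `r` it is removed;
* `CopsWin G S c r` : the cops (to move) can force that a cop occupies the robber's vertex;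
* `Winning G k` : `k` cops can choose initial vertices such that they win against every initial
  vertex of the robber;
* `grid m` : the grid graph on `(i : Fin n) → Fin (m i)`.
-/

namespace Pool.Agent.Results.MP_cd85a3_co.CeilHalfPlusOne

open Pool.Agent.Q149.Cop

theorem result {n : ℕ} (hn : 1 ≤ n) (m : Fin n → ℕ) (hm : ∀ i, 2 ≤ m i) :
    IsLeast {k | Winning (grid m) k}
      (if n = 1 ∧ ∀ i, m i ≤ 3 then 1
        else if n = 3 ∧ ∀ i, m i = 2 then 2
        else (n + 1) / 2 + 1) :=
  determination hn m hm

end Pool.Agent.Results.MP_cd85a3_co.CeilHalfPlusOne
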